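import Pool.Agent.H435.BL.All

/-!
# Vojta's inequality for the canonical degrees of curves, for blown-up surfaces

Let `k` be an algebraically closed field of characteristic zero, for example the field of complex
numbers, and let `S` be the surface `F a = 0` (`a ∈ A`) in projective space of dimension
`n = |A| + 2`, where the `F a` are forms of degrees `dg a ≥ 2` whose coefficients, all together, are
algebraically independent over the rational numbers (a very general complete intersection surface),
`K_S = O(c)` with `c = ∑ dg a - n - 1`. Let `X` be the blow-up of `S` at finitely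
many distinct points `q l` (`l ∈ Q`), which are arbitrary, and at finitely many further generic points
`p j` (`j ∈ J`); one of the two sets can be empty. Then `K_X = O(c) + ∑ E`, where `E` runs over the
exceptional curves. The number of the points `p j` is arbitrary, so that `K_X ^ 2` can be as negative
as we want. If `S` is of general type, that is, `c ≥ 1`, then we prove Vojta's inequality
`K_X . C ≤ (4 + ε) (g - 1) + B` with `ε = 0` and `B = 0` for all curves `C` in `X` other than the
exceptional curves (for which `K_X . E = -1`), of all degrees and with arbitrary singularities (`g` is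
the geometric genus), if the number `m` of the points `q l` is zero, or at most `c - 2` (in many
cases, `c - 1`); and more generally for all maps from smooth projective curves to `X` that are not
constant on `S`. Instead of the number of the points `q l` we may take for `m` the degree of any
hypersurface that contains them, but not the curve. For all `c` and all `m`,
`K_X . C ≤ 2 g - 2 + E . C` if `C` meets the exceptional curve `E` over one of the generic points, and
so, if `c ≥ 0` (for example if `S` is a K3 surface), `K_X . C ≤ 4 (g - 1)` if `C` meets two of them.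

The curve is given by its function field `L` (a function field of one variable over `k`), whose
places are the points of the smooth projective curve, and the map to `S` by its homogeneous
coordinates `x`, which are elements of `L`; the map to `X` is its unique lift.
-/

set_option autoImplicit false

namespace Pool.Agent.Results.MP_79ab39_ag.BlowUpSurfaces

open FF MvPolynomial

section

variable (k : Type) {L : Type} [Field k] [Field L] [Algebra k L]

/-- The least order at the place `P` of the nonzero elements of a family. -/
noncomputable def minOrd (P : Place k L) {ι : Type} (x : ι → L) : ℤ :=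
  ⨅ j : {j // x j ≠ 0}, P.ord (x j)

/-- The height of the point with homogeneous coordinates `x`: minus the sum over the places of `L`
of the least order of the coordinates, that is, the degree of the pull-back of `O(1)` to the curve
with function field `L`. -/
noncomputable def height {n : ℕ} (x : Fin (n + 1) → L) : ℤ := - ∑ᶠ P : Place k L, minOrd k P x

/-- The degree of the pull-back to the curve with function field `L` of the exceptional curve of the
blow-up at the point with homogeneous coordinates `p` in `k`, for the lift to the blow-up of the map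
with homogeneous coordinates `x`. At the place `P` it is the order of vanishing of the pull-back of
the ideal of the point: the least order of the minors `x a * p b - x b * p a`, if the least order of
the `x a` is `0`, and in general the difference of the two. -/
noncomputable def exceptionalDegree {n : ℕ} (x : Fin (n + 1) → L) (p : Fin (n + 1) → k) : ℤ :=
  ∑ᶠ P : Place k L, (minOrd k P (fun q : Fin (n + 1) × Fin (n + 1) =>
    x q.1 * algebraMap k L (p q.2) - x q.2 * algebraMap k L (p q.1)) - minOrd k P x)

variable (L) in
open Classical in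
/-- `2 g - 2`, where `g` is the genus of the curve with function field `L`: minus the degree of the
divisor of a nonzero rational vector field `D` (a derivation of `L` over `k`), whose order at the
place `P` is the order of `D t`, where `t` is an element of order `1` at `P`. It does not depend on
the choice of `D` and of the elements `t`. -/
noncomputable def canonicalDegree : ℤ :=
  if h : ∃ D : Derivation k L L, D ≠ 0 then - ∑ᶠ P : Place k L, P.ord (h.choose P.surj.choose)
  else 0

/-- The point `x` of projective space does not come from a point over `k`: it gives a nonconstant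
morphism from the curve with function field `L` to projective space. -/
def Nonconstant {n : ℕ} (x : Fin (n + 1) → L) : Prop := ∃ a b, x b ≠ 0 ∧ Transcendental k (x a / x b)

end

/-- The `q l` (`l ∈ Q`) are homogeneous coordinates of distinct points of the surface `F a = 0`. -/
structure DistinctPoints {k : Type} [Field k] {n : ℕ} {A Q : Type}
    (F : A → MvPolynomial (Fin (n + 1)) k) (q : Q → Fin (n + 1) → k) : Prop where
  ne_zero : ∀ l, ∃ b, q l b ≠ 0
  mem : ∀ l a, eval (q l) (F a) = 0
  distinct : ∀ l l', l ≠ l' → ∃ a b, q l a * q l' b - q l b * q l' a ≠ 0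

/-- The points `p j` (`j ∈ J`) are generic points of the surface `F a = 0`: they are points of it,
and each of them is generic over the field that is generated by the coefficients of the `F a` and
the coordinates of the points `q l` and of the other points `p j`: two of the ratios
`p i a / p i c`, `p i b / p i c` of its homogeneous coordinates are algebraically independent over
this field. -/
structure GenericPoints {k : Type} [Field k] [CharZero k] {n : ℕ} {A Q J : Type}
    (F : A → MvPolynomial (Fin (n + 1)) k) (q : Q → Fin (n + 1) → k)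
    (p : J → Fin (n + 1) → k) : Prop where
  mem : ∀ j a, eval (p j) (F a) = 0
  gen : ∀ i, ∃ a b c, p i c ≠ 0 ∧ AlgebraicIndependent
    (IntermediateField.adjoin ℚ ({r | ∃ a u, r = (F a).coeff u} ∪
      {r | ∃ l u v, r = q l u / q l v} ∪
      {r | ∃ j, j ≠ i ∧ ∃ u v, r = p j u / p j v})) ![p i a / p i c, p i b / p i c]

/-- Let `F a` (`a ∈ A`) be forms of degrees `dg a ≥ 2` in `n + 1` variables over `k`, `n = |A| + 2`,
whose coefficients, all together, are algebraically independent over the rational numbers, let
`c = ∑ dg a - n - 1`, let `q l` be distinct points of the surface `S`: `F a = 0` for all `a`, let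
`p j` be generic points of `S`, and let `X` be the blow-up of `S` at all these points, so that
`K_X = O(c) + ∑ E`. Let `x` be a nonconstant point of `S` over a function field `L` of genus `g`, that
is, a map from a curve `C` of genus `g` to `X` that is not constant on `S`. Let `m` be the number of
the points `q l`, or the degree of a form `H` that vanishes at the points `q l`, but not on `C`.
1. Let `c ≥ 1`. If `m = 0` (and so there are no `q l`), or `m ≤ c - 2`, or `m ≤ c - 1` and `S` is a
surface in projective space of dimension three or the sum of the numbers `dg a + 1` over the `a` with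
`dg a ≤ 4` is at least `2 n - 1`, then `K_X . C ≤ 4 (g - 1)`. For all `m`,
`(c - 1) (K_X . C) ≤ (c + m) (2 g - 2)`; in the third case, `c (K_X . C) ≤ (c + m + 1) (2 g - 2)`.
2. For all `c` and `m`, if `C` passes through the generic point `p j`, then
`K_X . C ≤ 2 g - 2 + E . C`, where `E` is the exceptional curve over `p j`; and if `c ≥ 1`, then
`c (K_X . C) ≤ (c + 1) (2 g - 2)`, and so `K_X . C ≤ 4 (g - 1)`.
3. If `c ≥ 0` and `C` passes through two of the generic points, then `K_X . C ≤ 4 (g - 1)`. -/
theorem result (k : Type) [Field k] [IsAlgClosed k] [CharZero k] (A : Type) [Fintype A] (n : ℕ)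
    (hn : n = Fintype.card A + 2) (dg : A → ℕ) (hdg : ∀ a, 2 ≤ dg a)
    (F : A → MvPolynomial (Fin (n + 1)) k) (hF : ∀ a, (F a).IsHomogeneous (dg a))
    (hgen : AlgebraicIndependent ℚ
      fun p : (a : A) × {I : Fin (n + 1) →₀ ℕ // I.degree = dg a} => (F p.1).coeff p.2.1)
    (c : ℤ) (hc : c = (∑ a, (dg a : ℤ)) - n - 1)
    (Q : Type) [Fintype Q] (q : Q → Fin (n + 1) → k) (hq : DistinctPoints F q)
    (J : Type) [Fintype J] (p : J → Fin (n + 1) → k) (hp : GenericPoints F q p)
    (L : Type) [Field L] [Algebra k L] [IsFF k L] (x : Fin (n + 1) → L) (hx : Nonconstant k x)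
    (hxF : ∀ a, aeval x (F a) = 0)
    (m : ℕ) (hm : m = Fintype.card Q ∨ ∃ H : MvPolynomial (Fin (n + 1)) k,
      H.IsHomogeneous m ∧ (∀ l, eval (q l) H = 0) ∧ aeval x H ≠ 0)
    (K : ℤ) (hK : K = c * height k x + ∑ l, exceptionalDegree k x (q l) +
      ∑ j, exceptionalDegree k x (p j)) :
    (1 ≤ c → ((m = 0 ∨ m ≤ c - 2 ∨
        m ≤ c - 1 ∧ (n = 3 ∨ 2 * n - 1 ≤ ∑ a with dg a ≤ 4, (dg a + 1))) →
        K ≤ 2 * canonicalDegree k L) ∧
      (c - 1) * K ≤ (c + m) * canonicalDegree k L ∧
      (m ≤ c - 1 → (n = 3 ∨ 2 * n - 1 ≤ ∑ a with dg a ≤ 4, (dg a + 1)) →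
        c * K ≤ (c + m + 1) * canonicalDegree k L)) ∧
    (∀ j, 0 < exceptionalDegree k x (p j) →
      K ≤ canonicalDegree k L + exceptionalDegree k x (p j) ∧
      (1 ≤ c → c * K ≤ (c + 1) * canonicalDegree k L)) ∧
    (0 ≤ c → ∀ i j, i ≠ j → 0 < exceptionalDegree k x (p i) → 0 < exceptionalDegree k x (p j) →
      K ≤ 2 * canonicalDegree k L) := by
  classical
  have hcan : canonicalDegree k L = Pool.Agent.W603.LV.canDeg k L := by
    have h : ∃ D : Derivation k L L, D ≠ 0 := Pool.Agent.W603.LV.exists_der
    unfold canonicalDegree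
    rw [dif_pos h, Pool.Agent.W603.LV.canDeg_eq h.choose_spec]
    rfl
  have hh : height k x = Pool.Agent.W603.PV.pht k x := rfl
  obtain ⟨a, b, hb, hab⟩ := hx
  have hx0 : x ≠ 0 := fun h => hb (congrFun h b)
  have hp0 : 0 ≤ Pool.Agent.W603.PV.pht k x := by
    rw [← Pool.Agent.Y735.fht_fin]
    exact Pool.Agent.Y735.fht_nonneg hx0
  have hqd : ∀ l l', l ≠ l' → Pool.Agent.Y735.pl (q l) (q l') ≠ 0 := fun l l' hne h => by
    obtain ⟨u, v, huv⟩ := hq.distinct l l' hne
    exact huv (congrFun h (u, v))
  have hc' : ((∑ a, dg a : ℕ) : ℤ) - n - 1 = c := by rw [hc, Nat.cast_sum]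
  have he : ∀ o : Fin (n + 1) → k, (∃ c, o c ≠ 0) → exceptionalDegree k x o =
      Pool.Agent.W603.PV.pht k x -
      Pool.Agent.Y735.fht k (Pool.Agent.Y735.pl x (Pool.Agent.H435.BL.pc L o)) := fun o ho =>
    Pool.Agent.H435.BL.exc_eq hb hab ho
  have hpn : ∀ j, ∃ c, p j c ≠ 0 := fun j => let ⟨_, _, _, h, _⟩ := hp.gen j; ⟨_, h⟩
  have hej := fun j => he (p j) (hpn j)
  have hel := fun l => he (q l) (hq.ne_zero l)
  have hpos : ∀ o : Fin (n + 1) → k, (∃ c, o c ≠ 0) → 0 ≤ exceptionalDegree k x o ∧
      exceptionalDegree k x o ≤ height k x := fun o ho => by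
    have h1 := Pool.Agent.H435.BL.pl_ne hb hab ho
    rw [he o ho, hh]
    refine ⟨Pool.Agent.H435.BL.pos_mult hx0 h1, ?_⟩
    have h2 := Pool.Agent.Y735.fht_nonneg (k := k) h1
    linarith
  have hpj := fun j => hpos (p j) (hpn j)
  have hql := fun l => (hpos (q l) (hq.ne_zero l)).1
  have hQ0 : 0 ≤ ∑ l, exceptionalDegree k x (q l) := Finset.sum_nonneg fun l _ => hql l
  -- the inequality at a generic point
  have key : ∀ i, 0 < exceptionalDegree k x (p i) →
      K ≤ canonicalDegree k L + exceptionalDegree k x (p i) := by
    intro i hi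
    rw [hej] at hi
    have h1 := Pool.Agent.H435.BL.mainI hn hdg hF hgen hb hab hxF hq.ne_zero hqd hp.gen i hi
    rw [hc', ← Finset.sum_congr rfl fun l _ => hel l, ← Finset.sum_congr rfl fun j _ => hej j,
      ← hej, ← hcan, ← hh, ← hK] at h1
    linarith
  have key2 : 1 ≤ c → ∀ i, 0 < exceptionalDegree k x (p i) →
      c * height k x ≤ canonicalDegree k L := by
    intro hc1 i hi
    have h1 := key i hi
    have h2 := Finset.add_sum_erase Finset.univ (fun j => exceptionalDegree k x (p j))
      (Finset.mem_univ i)
    have h3 : 0 ≤ ∑ j ∈ Finset.univ.erase i, exceptionalDegree k x (p j) :=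
      Finset.sum_nonneg fun j _ => (hpj j).1
    linarith
  refine ⟨fun hc1 => ?_, fun i hi => ⟨key i hi, fun hc1 => ?_⟩, fun hc0 i j hij hi hj => ?_⟩
  · have hsum : n + 2 ≤ ∑ a, dg a := by
      have h1 : (n : ℤ) + 2 ≤ ((∑ a, dg a : ℕ) : ℤ) := by
        push_cast
        linarith
      exact_mod_cast h1
    obtain ⟨H, hH, hHq, hxH⟩ : ∃ H : MvPolynomial (Fin (n + 1)) k,
        H.IsHomogeneous m ∧ (∀ l, eval (q l) H = 0) ∧ aeval x H ≠ 0 := by
      rcases hm with hm | hm
      · rw [hm]
        exact Pool.Agent.H435.BL.exists_prod fun l =>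
          Pool.Agent.H435.BL.pl_ne hb hab (hq.ne_zero l)
      · exact hm
    have h0 := Pool.Agent.H435.BL.mainS hn hdg hF hgen hb hab hxF hH hxH hq.ne_zero hqd hHq hp.gen
    obtain ⟨m0, m1, m2⟩ := Pool.Agent.H435.CV.main2 (k0 := ℚ) hn hdg hsum hF hgen hb hab hxF
    rw [hh, Finset.sum_congr rfl fun l _ => hel l, Finset.sum_congr rfl fun j _ => hej j] at hK
    have hc2 : ((∑ a, dg a : ℕ) : ℤ) - n - 2 = c - 1 := by rw [← hc']; ring
    have hc3 : 2 * ((∑ a, dg a : ℕ) : ℤ) - 2 * n - 3 = 2 * c - 1 := by rw [← hc']; ring
    rw [hc', ← hK] at h0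
    rw [hc3] at m0
    rw [hc2] at m1
    rw [hc'] at m2
    rw [hcan]
    clear key key2 hpj hpos hql hQ0
    obtain ⟨h, hhd⟩ : ∃ h, h = Pool.Agent.W603.PV.pht k x := ⟨_, rfl⟩
    obtain ⟨N, hN⟩ : ∃ N, N = Pool.Agent.W603.LV.canDeg k L := ⟨_, rfl⟩
    rw [← hhd] at hp0 h0 m0 m1 m2
    rw [← hN] at h0 m0 m1 m2 ⊢
    have hm0 : (0 : ℤ) ≤ m := Int.natCast_nonneg m
    have m0' : (n = 3 ∨ 2 * n - 1 ≤ ∑ a with dg a ≤ 4, (dg a + 1)) → (2 * c - 1) * h ≤ 2 * N := by
      intro h1
      refine m0 ?_
      rcases h1 with h1 | h1
      · exact Or.inr (by omega)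
      · exact Or.inl (by omega)
    have hN0 : 0 ≤ N := by nlinarith
    refine ⟨fun h1 => ?_, ?_, fun h1 h2 => ?_⟩
    · rcases h0 with ⟨h0, -⟩ | ⟨h0, h0'⟩
      · rcases h1 with h1 | h1 | ⟨h1, h2⟩
        · rw [h1, Nat.cast_zero, add_zero] at h0
          linarith
        · have h3 : (c + m) * h ≤ (2 * (c - 1)) * h :=
            mul_le_mul_of_nonneg_right (by linarith) hp0
          linarith
        · have h3 : (c + m) * h ≤ (2 * c - 1) * h := mul_le_mul_of_nonneg_right (by linarith) hp0
          linarith [m0' h2]
      · have h3 : 1 * h ≤ c * h := mul_le_mul_of_nonneg_right hc1 hp0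
        linarith
    · rcases h0 with ⟨h0, -⟩ | ⟨h0, h0'⟩
      · have h3 : (c - 1) * K ≤ (c - 1) * ((c + m) * h) :=
          mul_le_mul_of_nonneg_left h0 (by linarith)
        have h4 : (c + m) * ((c - 1) * h) ≤ (c + m) * N :=
          mul_le_mul_of_nonneg_left m1 (by linarith)
        linarith
      · have h3 : (c - 1) * K ≤ (c - 1) * (N + h) := mul_le_mul_of_nonneg_left h0 (by linarith)
        have h4 : 0 ≤ (m : ℤ) * N := mul_nonneg hm0 hN0
        linarith
    · rcases h0 with ⟨h0, -⟩ | ⟨h0, h0'⟩
      · have h3 : c * K ≤ c * ((c + m) * h) := mul_le_mul_of_nonneg_left h0 (by linarith)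
        have h4 : (c + m + 1) * ((2 * c - 1) * h) ≤ (c + m + 1) * (2 * N) :=
          mul_le_mul_of_nonneg_left (m0' h2) (by linarith)
        have h5 : 0 ≤ (c - 1 - m) * h := mul_nonneg (by linarith) hp0
        nlinarith
      · have h3 : c * K ≤ c * (N + h) := mul_le_mul_of_nonneg_left h0 (by linarith)
        have h4 : 0 ≤ (m : ℤ) * N := mul_nonneg hm0 hN0
        linarith
  · have h1 := key i hi
    have h2 := key2 hc1 i hi
    have h3 : c * K ≤ c * (canonicalDegree k L + exceptionalDegree k x (p i)) :=
      mul_le_mul_of_nonneg_left h1 (by linarith)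
    have h4 : c * exceptionalDegree k x (p i) ≤ c * height k x :=
      mul_le_mul_of_nonneg_left (hpj i).2 (by linarith)
    linarith
  · have h1 := key i hi
    have h2 := key j hj
    have h3 := Finset.add_sum_erase Finset.univ (fun j => exceptionalDegree k x (p j))
      (Finset.mem_univ i)
    have h4 := Finset.add_sum_erase (Finset.univ.erase i) (fun j => exceptionalDegree k x (p j))
      (Finset.mem_erase.2 ⟨hij.symm, Finset.mem_univ j⟩)
    have h5 : 0 ≤ ∑ j ∈ (Finset.univ.erase i).erase j, exceptionalDegree k x (p j) :=
      Finset.sum_nonneg fun j _ => (hpj j).1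
    have h6 : 0 ≤ c * height k x := mul_nonneg hc0 (by rw [hh]; exact hp0)
    linarith

end Pool.Agent.Results.MP_79ab39_ag.BlowUpSurfaces
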