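import Pool.Agent.H435.CV.Top
import Pool.Graph.R_seed8.W619.TW.Hyp
import Pool.Graph.R_seed8.W619.PQ.Curve

/-!
# Vojta's inequality for the canonical degrees of curves, for all very general complete
intersection surfaces

Let `k` be an algebraically closed field of characteristic zero, for example the field of complex
numbers, and let `X` be the surface `F a = 0` (`a ∈ A`) in projective space of dimension
`n = |A| + 2`, where the `F a` are forms of degrees `dg a ≥ 2` whose coefficients, all together, are
algebraically independent over the rational numbers (a very general complete intersection surface of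
these degrees). The canonical bundle of `X` is `O(c)`, `c = ∑ dg a - n - 1`, and `X` is of general
type if and only if `c ≥ 1`. We prove Vojta's inequality `K_X . C ≤ (4 + ε) (g - 1) + B`, with
`ε = 0`, for all curves `C` in `X`, of all degrees and with arbitrary singularities (`g` is the
geometric genus), and more generally for all nonconstant maps from smooth projective curves to `X`;
if `X` is of general type, also `B = 0`.

The curve is given by its function field `L` (a function field of one variable over `k`), whose
places are the points of the smooth projective curve, and the map by its homogeneous coordinates `x`,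
which are elements of `L`. For the normalisation of a curve `C` in `X` the height of `x` is the
degree of `C`, and `K_X . C` is `c deg C`.
-/

set_option autoImplicit false

namespace Pool.Agent.Results.MP_79ab39_ag.CompleteIntersectionSurfaces

open FF MvPolynomial

section

variable (k : Type) {L : Type} [Field k] [Field L] [Algebra k L] {n : ℕ}

/-- The least order at the place `P` of the coordinates of a point of projective space. -/
noncomputable def minOrd (P : Place k L) (x : Fin (n + 1) → L) : ℤ :=
  ⨅ j : {j // x j ≠ 0}, P.ord (x j)

/-- The height of the point with homogeneous coordinates `x`: minus the sum over the places of `L`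
of the least order of the coordinates, that is, the degree of the pull-back of `O(1)` to the curve
with function field `L`. -/
noncomputable def height (x : Fin (n + 1) → L) : ℤ := - ∑ᶠ P : Place k L, minOrd k P x

variable (L) in
open Classical in
/-- `2 g - 2`, where `g` is the genus of the curve with function field `L`: minus the degree of the
divisor of a nonzero rational vector field `D` (a derivation of `L` over `k`), whose order at the
place `P` is the order of `D t`, where `t` is an element of order `1` at `P`. It does not depend on
the choice of `D` and of the elements `t`. -/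
noncomputable def canonicalDegree : ℤ :=
  if h : ∃ D : Derivation k L L, D ≠ 0 then - ∑ᶠ P : Place k L, P.ord (h.choose P.surj.choose)
  else 0

/-- The point `x` of projective space does not come from a point over `k`: it gives a nonconstant
morphism from the curve with function field `L` to projective space. -/
def Nonconstant (x : Fin (n + 1) → L) : Prop := ∃ a b, x b ≠ 0 ∧ Transcendental k (x a / x b)

end

/-- Let `F a` (`a ∈ A`) be forms of degrees `dg a ≥ 2` in `n + 1` variables over `k`, `n = |A| + 2`,
whose coefficients, all together, are algebraically independent over the rational numbers, let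
`c = ∑ dg a - n - 1`, so that `K_X = O(c)` for the surface `X`: `F a = 0` for all `a`, and let `x`
be a nonconstant point of `X` over a function field `L` of genus `g`, of height `h`.
If `c ≥ 1`, then `K_X . C = c h ≤ 4 (g - 1)`; and if moreover `X` is a surface in projective space of
dimension three, or if the sum of the numbers `dg a + 1` over the `a` with `dg a ≤ 4` is at least `2 n - 1`
(this is so if all the degrees are at most `4`), then `(c - 1 / 2) h ≤ 2 g - 2`, which is better.
For all `c`, `K_X . C = c h ≤ 4 (g - 1) + 4`. -/
theorem result (k : Type) [Field k] [IsAlgClosed k] [CharZero k] (A : Type) [Fintype A] (n : ℕ)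
    (hn : n = Fintype.card A + 2) (dg : A → ℕ) (hdg : ∀ a, 2 ≤ dg a)
    (F : A → MvPolynomial (Fin (n + 1)) k) (hF : ∀ a, (F a).IsHomogeneous (dg a))
    (hgen : AlgebraicIndependent ℚ
      fun p : (a : A) × {I : Fin (n + 1) →₀ ℕ // I.degree = dg a} => (F p.1).coeff p.2.1)
    (c : ℤ) (hc : c = (∑ a, (dg a : ℤ)) - n - 1)
    (L : Type) [Field L] [Algebra k L] [IsFF k L] (x : Fin (n + 1) → L) (hx : Nonconstant k x)
    (hxF : ∀ a, aeval x (F a) = 0) :
    (1 ≤ c → c * height k x ≤ 2 * canonicalDegree k L ∧
      ((n = 3 ∨ 2 * n - 1 ≤ ∑ a with dg a ≤ 4, (dg a + 1)) →
        (2 * c - 1) * height k x ≤ 2 * canonicalDegree k L)) ∧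
    c * height k x ≤ 2 * canonicalDegree k L + 4 := by
  have hcan : canonicalDegree k L = Pool.Agent.W603.LV.canDeg k L := by
    have h : ∃ D : Derivation k L L, D ≠ 0 := Pool.Agent.W603.LV.exists_der
    unfold canonicalDegree
    rw [dif_pos h, Pool.Agent.W603.LV.canDeg_eq h.choose_spec]
    rfl
  have hh : height k x = Pool.Agent.W603.PV.pht k x := rfl
  obtain ⟨a, b, hb, hab⟩ := hx
  have h0 : 0 ≤ Pool.Agent.W603.PV.pht k x := by
    rw [← Pool.Agent.Y735.fht_fin]
    exact Pool.Agent.Y735.fht_nonneg fun h => hb (congrFun h b)
  have hc' : c = ((∑ a, dg a : ℕ) : ℤ) - n - 1 := by rw [hc, Nat.cast_sum]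
  have h1 : 1 ≤ c → c * height k x ≤ 2 * canonicalDegree k L ∧
      ((n = 3 ∨ 2 * n - 1 ≤ ∑ a with dg a ≤ 4, (dg a + 1)) →
        (2 * c - 1) * height k x ≤ 2 * canonicalDegree k L) := by
    intro hc1
    have h2 : (n : ℤ) + 2 ≤ ((∑ a, dg a : ℕ) : ℤ) := by linarith
    obtain ⟨h3, -, h5⟩ := Pool.Agent.H435.CV.main2 (k0 := ℚ) hn hdg (by exact_mod_cast h2) hF hgen
      hb hab hxF
    rw [hcan, hh, hc']
    refine ⟨h5, fun h => ?_⟩
    have h6 := h3 (by
      rcases h with h | h
      · exact Or.inr (by omega)
      · exact Or.inl (by omega))
    linarith
  refine ⟨h1, ?_⟩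
  rcases le_or_gt 1 c with h | h
  · linarith [(h1 h).1]
  · have h2 : (0 : ℤ) ≤ Pool.Agent.W603.LV.canDeg k L + 2 := by
      by_cases h : ∃ t : L, IntermediateField.adjoin k {t} = ⊤
      · obtain ⟨t, ht⟩ := h
        rw [Pool.Agent.W619.PQ.canDeg_rational ht]
        norm_num
      · have := Pool.Agent.W619.TW.canDeg_nonneg h
        omega
    have h3 : c ≤ 0 := by omega
    have h4 := mul_nonpos_of_nonpos_of_nonneg h3 h0
    rw [hcan, hh]
    linarith

end Pool.Agent.Results.MP_79ab39_ag.CompleteIntersectionSurfaces
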